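import Mathlib
import Pool.Agent.Lib.MP_08d8ea_nt.Defs
import Pool.Agent.Lib.MP_08d8ea_nt.Curve

set_option autoImplicit false

open Pool.Agent.Lib.MP_08d8ea_nt

namespace Pool.Agent.Results.MP_08d8ea_nt.Counterexample

/-- For admissible `p, a, k, l` (namely `11, 8, 2, 199`) the function field `K = F_l(x, y)` of
`y ^ p = x (a - x) ^ k` has a finite degree-zero divisor class group of even order. -/
theorem result :
    ∃ (p k l : ℕ) (a : ℤ) (_ : Fact l.Prime),
      p.Prime ∧ 5 < p ∧ Even a ∧ (∀ d : ℤ, d ^ p ∣ a → IsUnit d) ∧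
      2 ≤ k ∧ k ≤ p - 3 ∧ k ≠ (p - 1) / 2 ∧
      l % p = 1 ∧ ¬ (l : ℤ) ∣ a ∧ (¬ ∃ z : ZMod l, z ^ p = (a : ZMod l)) ∧
      ∃ (K : Type) (_ : Field K) (_ : Algebra (ZMod l) K) (x y : K),
        Transcendental (ZMod l) x ∧ y ^ p = x * ((a : K) - x) ^ k ∧
        IntermediateField.adjoin (ZMod l) {x, y} = ⊤ ∧
        Finite (Pic0 (ZMod l) K) ∧ Even (Nat.card (Pic0 (ZMod l) K)) := by
  refine ⟨11, 2, 199, 8, fact199, by norm_num, by norm_num, by decide, fun d hd => ?_,
    by norm_num, by norm_num, by norm_num, by norm_num, by norm_num, by decide +kernel,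
    KK, inferInstance, inferInstance, xx (ZMod 199) KK, yy, xx_transcendental,
    by exact_mod_cast yy_eq, adjoin_top, main⟩
  have h1 : d.natAbs ^ 11 ≤ 8 := by
    have := Nat.le_of_dvd (by norm_num) (Int.natAbs_dvd_natAbs.mpr hd)
    rwa [Int.natAbs_pow] at this
  have h2 : d ≠ 0 := by
    rintro rfl
    norm_num at hd
  have h3 : d.natAbs < 2 := lt_of_pow_lt_pow_left₀ 11 (by norm_num) (by omega)
  rw [Int.isUnit_iff_natAbs_eq]
  omega

end Pool.Agent.Results.MP_08d8ea_nt.Counterexample
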